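import Pool.Agent.H38.SpecDehn.Energy

/-!
The bound for `μ̃_1 (Δ_n)`.
-/

open Filter Topology

namespace Pool.Agent.H38.SpecDehn

theorem sum_face {n : ℕ} (F : Face n → ℝ) : ∑ f, F f =
    (∑ r : Fin n, ∑ j : Fin n, F (.A r j)) + (∑ r : Fin n, ∑ j : Fin n, F (.B r j)) +
      ∑ c : Fin n, ∑ ρ : Fin (n ^ 2), F (.C c ρ) := by
  rw [← (faceEquiv n).symm.sum_comp, Fintype.sum_sum_type, Fintype.sum_sum_type,
    Fintype.sum_prod_type, Fintype.sum_prod_type, Fintype.sum_prod_type, add_assoc]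
  rfl

theorem sum_blocks (n k : ℕ) (φ : ℕ → ℝ) :
    ∑ r ∈ Finset.range k, ∑ j ∈ Finset.range n, φ (r * n + j) =
      ∑ ρ ∈ Finset.range (k * n), φ ρ := by
  induction k with
  | zero => simp
  | succ k ih => rw [Finset.sum_range_succ, ih, Nat.succ_mul, Finset.sum_range_add]

theorem sum_blocks' (n : ℕ) (φ : ℕ → ℝ) :
    ∑ r : Fin n, ∑ j : Fin n, φ (r * n + j) = ∑ ρ ∈ Finset.range (n ^ 2), φ ρ := by
  rw [sq, ← sum_blocks n n φ, Finset.sum_range]
  refine Finset.sum_congr rfl fun r _ => ?_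
  rw [Finset.sum_range]

theorem sum_C (n : ℕ) (φ : ℕ → ℕ → ℝ) : ∑ c : Fin n, ∑ ρ : Fin (n ^ 2), φ c ρ =
    ∑ c ∈ Finset.range n, ∑ ρ ∈ Finset.range (n ^ 2), φ c ρ := by
  rw [Finset.sum_range]
  refine Finset.sum_congr rfl fun r _ => ?_
  rw [Finset.sum_range]

theorem L_sum {n : ℕ} (hn : 0 < n) :
    ∑ c ∈ Finset.range n, ∑ ρ ∈ Finset.range (n ^ 2), L n c ρ ≤
      2 * (H n ^ 2 / n) + 64 * (n * H n) := by
  have hn' : (0 : ℝ) < n := by exact_mod_cast hn
  unfold L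
  simp only [Finset.sum_add_distrib, Finset.sum_const, Finset.card_range, nsmul_eq_mul]
  have h1 := S_le n
  have h2 : ∑ c ∈ Finset.range n, ∑ ρ ∈ Finset.range (n ^ 2),
      2 * (4 / ((dd n c (ρ % n) : ℝ) + 1) ^ 2) = 8 * ∑ c ∈ Finset.range n,
        ∑ ρ ∈ Finset.range (n ^ 2), 1 / ((dd n c (ρ % n) : ℝ) + 1) ^ 2 := by
    rw [Finset.mul_sum]
    refine Finset.sum_congr rfl fun c _ => ?_
    rw [Finset.mul_sum]
    refine Finset.sum_congr rfl fun ρ _ => ?_
    ring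
  rw [h2]
  have h3 : (n : ℝ) * (((n ^ 2 : ℕ) : ℝ) * (2 * ((1 / ((n : ℝ) ^ 2)) ^ 2 * H n ^ 2))) =
      2 * (H n ^ 2 / n) := by
    push_cast
    field_simp
  rw [h3]
  linarith

theorem L_row {n c : ℕ} (hc : c < n) :
    ∑ ρ ∈ Finset.range (n ^ 2), L n c ρ ≤
      ∑ c ∈ Finset.range n, ∑ ρ ∈ Finset.range (n ^ 2), L n c ρ :=
  Finset.single_le_sum (f := fun c => ∑ ρ ∈ Finset.range (n ^ 2), L n c ρ)
    (fun c _ => Finset.sum_nonneg fun ρ _ => L_nonneg n c ρ) (Finset.mem_range.2 hc)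

theorem energy_le {n : ℕ} (hn : 0 < n) : energy (g (n := n)) ≤ 510 * (n * H n) := by
  have hn' : (1 : ℝ) ≤ n := by exact_mod_cast hn
  have hn0 : (0 : ℝ) < n := by linarith
  have hH0 := H_nonneg n
  have hHn := H_le n
  have e1 : ∑ f : Face n, ∑ f' : Face n, (m f f' : ℝ) * (g f - g f') ^ 2 ≤
      ∑ f : Face n, 5 * KK f := by
    refine Finset.sum_le_sum fun f _ => ?_
    refine (pair_sum_le g f (fun _ => KK f) (fun _ _ => KK_nonneg f)
      (fun e he f' hf' he' => adj_bound f f' e he he' hf')).trans ?_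
    rw [Finset.sum_const, nsmul_eq_mul]
    exact mul_le_mul_of_nonneg_right (by exact_mod_cast card_bd_le f) (KK_nonneg f)
  have e2 : ∑ f : Face n, KK f ≤ 3 * (2 * (H n ^ 2 / n) + 64 * (n * H n)) + 2 * H n ^ 2 := by
    rw [sum_face]
    have s1 : ∑ r : Fin n, ∑ j : Fin n, KK (Face.A r j) ≤
        (2 * (H n ^ 2 / n) + 64 * (n * H n)) + H n ^ 2 := by
      have h1 := sum_blocks' n fun ρ => L n 0 ρ + H n ^ 2 / (n : ℝ) ^ 2
      have h2 : ∑ ρ ∈ Finset.range (n ^ 2), (L n 0 ρ + H n ^ 2 / (n : ℝ) ^ 2) ≤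
          (2 * (H n ^ 2 / n) + 64 * (n * H n)) + H n ^ 2 := by
        rw [Finset.sum_add_distrib, Finset.sum_const, Finset.card_range, nsmul_eq_mul]
        have h3 := (L_row hn).trans (L_sum hn)
        have h4 : ((n ^ 2 : ℕ) : ℝ) * (H n ^ 2 / (n : ℝ) ^ 2) = H n ^ 2 := by
          push_cast
          field_simp
        linarith
      exact h1.le.trans h2
    have s2 : ∑ r : Fin n, ∑ j : Fin n, KK (Face.B r j) ≤
        (2 * (H n ^ 2 / n) + 64 * (n * H n)) + H n ^ 2 := by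
      have h1 := sum_blocks' n fun ρ => L n (n - 1) ρ + H n ^ 2 / (n : ℝ) ^ 2
      have h2 : ∑ ρ ∈ Finset.range (n ^ 2), (L n (n - 1) ρ + H n ^ 2 / (n : ℝ) ^ 2) ≤
          (2 * (H n ^ 2 / n) + 64 * (n * H n)) + H n ^ 2 := by
        rw [Finset.sum_add_distrib, Finset.sum_const, Finset.card_range, nsmul_eq_mul]
        have h3 := (L_row (by omega : n - 1 < n)).trans (L_sum hn)
        have h4 : ((n ^ 2 : ℕ) : ℝ) * (H n ^ 2 / (n : ℝ) ^ 2) = H n ^ 2 := by
          push_cast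
          field_simp
        linarith
      exact h1.le.trans h2
    have s3 : ∑ c : Fin n, ∑ ρ : Fin (n ^ 2), KK (Face.C c ρ) ≤
        2 * (H n ^ 2 / n) + 64 * (n * H n) := by
      have h1 := sum_C n fun c ρ => L n c ρ
      exact h1.le.trans (L_sum hn)
    linarith
  have e3 : ∑ f : Face n, (b f : ℝ) * g f ^ 2 ≤ 10 * H n ^ 2 := by
    rw [sum_face]
    have h4 : (n : ℝ) * ((n : ℝ) * (5 * (H n ^ 2 / (n : ℝ) ^ 2))) = 5 * H n ^ 2 := by
      field_simp
    have s1 : ∑ r : Fin n, ∑ j : Fin n, (b (Face.A r j) : ℝ) * g (Face.A r j) ^ 2 ≤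
        5 * H n ^ 2 := by
      calc ∑ r : Fin n, ∑ j : Fin n, (b (Face.A r j) : ℝ) * g (Face.A r j) ^ 2
          ≤ ∑ r : Fin n, ∑ j : Fin n, 5 * (H n ^ 2 / (n : ℝ) ^ 2) :=
            Finset.sum_le_sum fun r _ => Finset.sum_le_sum fun j _ =>
              bd_term_le g (Face.A r j) _ (by positivity) fun e he hout => outerA r j e he hout
        _ = 5 * H n ^ 2 := by simpa using h4
    have s2 : ∑ r : Fin n, ∑ j : Fin n, (b (Face.B r j) : ℝ) * g (Face.B r j) ^ 2 ≤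
        5 * H n ^ 2 := by
      calc ∑ r : Fin n, ∑ j : Fin n, (b (Face.B r j) : ℝ) * g (Face.B r j) ^ 2
          ≤ ∑ r : Fin n, ∑ j : Fin n, 5 * (H n ^ 2 / (n : ℝ) ^ 2) :=
            Finset.sum_le_sum fun r _ => Finset.sum_le_sum fun j _ =>
              bd_term_le g (Face.B r j) _ (by positivity) fun e he hout => outerB r j e he hout
        _ = 5 * H n ^ 2 := by simpa using h4
    have s3 : ∑ c : Fin n, ∑ ρ : Fin (n ^ 2), (b (Face.C c ρ) : ℝ) * g (Face.C c ρ) ^ 2 ≤ 0 := by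
      refine Finset.sum_nonpos fun c _ => Finset.sum_nonpos fun ρ _ => ?_
      have := bd_term_le g (Face.C c ρ) 0 le_rfl fun e he hout => outerC c ρ e he hout
      simpa using this
    linarith
  have e4 : H n ^ 2 / n ≤ n * H n := by
    rw [div_le_iff₀ hn0]
    nlinarith [mul_nonneg hH0 hn0.le, mul_nonneg (mul_nonneg hH0 hn0.le) hn0.le]
  have e5 : H n ^ 2 ≤ n * H n := by nlinarith
  unfold energy
  rw [← Finset.mul_sum] at e1
  linarith

theorem mass_ge {n : ℕ} (hn : 4 ≤ n) :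
    (n : ℝ) ^ 3 * H n ^ 2 / 409600 ≤ ∑ f : Face n, g f ^ 2 := by
  rw [sum_face]
  have h1 : 0 ≤ ∑ r : Fin n, ∑ j : Fin n, g (Face.A r j) ^ 2 := by positivity
  have h2 : 0 ≤ ∑ r : Fin n, ∑ j : Fin n, g (Face.B r j) ^ 2 := by positivity
  have h3 : ∑ c : Fin n, ∑ ρ : Fin (n ^ 2), g (Face.C c ρ) ^ 2 =
      ∑ c ∈ Finset.range n, ∑ ρ ∈ Finset.range (n ^ 2), G n c ρ ^ 2 :=
    sum_C n fun c ρ => G n c ρ ^ 2
  have h4 := G_mass hn
  linarith

theorem energy_nonneg {n : ℕ} (g : Face n → ℝ) : 0 ≤ energy g := by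
  unfold energy
  positivity

theorem H_pos {n : ℕ} (hn : 0 < n) : 0 < H n := by
  have h1 : H 1 ≤ H n := H_mono hn
  rw [H_succ, H_zero] at h1
  norm_num at h1
  linarith

theorem log_le_H (n : ℕ) : Real.log (n + 1) ≤ H n := by
  have h := log_add_one_le_harmonic n
  have e : ((harmonic n : ℚ) : ℝ) = H n := by
    unfold harmonic H
    push_cast
    simp
  rw [e] at h
  exact_mod_cast h

theorem muTilde_le {n : ℕ} (hn : 4 ≤ n) :
    muTilde n ≤ 208896000 / ((n : ℝ) ^ 2 * Real.log n) := by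
  have hn0 : 0 < n := by omega
  have hn' : (0 : ℝ) < n := by exact_mod_cast hn0
  have hH := H_pos hn0
  have hm := mass_ge hn
  have hmpos : 0 < ∑ f : Face n, g f ^ 2 := lt_of_lt_of_le (by positivity) hm
  have hg : (g (n := n)) ≠ 0 := by
    intro h0
    rw [h0] at hmpos
    simp at hmpos
  have h1 : muTilde n ≤ energy (g (n := n)) / ∑ f : Face n, g f ^ 2 := by
    unfold muTilde
    refine ciInf_le ⟨0, ?_⟩ (⟨g, hg⟩ : {g : Face n → ℝ // g ≠ 0})
    rintro _ ⟨g', rfl⟩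
    exact div_nonneg (energy_nonneg _) (Finset.sum_nonneg fun f _ => sq_nonneg _)
  have hlog : 0 < Real.log n := Real.log_pos (by exact_mod_cast (by omega : 1 < n))
  have hlogH : Real.log n ≤ H n := by
    refine le_trans ?_ (log_le_H n)
    exact Real.log_le_log hn' (by linarith)
  calc muTilde n ≤ energy (g (n := n)) / ∑ f : Face n, g f ^ 2 := h1
    _ ≤ (510 * (n * H n)) / ((n : ℝ) ^ 3 * H n ^ 2 / 409600) :=
        div_le_div₀ (by positivity) (energy_le hn0) (by positivity) hm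
    _ = 208896000 / ((n : ℝ) ^ 2 * H n) := by
        field_simp
        norm_num
    _ ≤ 208896000 / ((n : ℝ) ^ 2 * Real.log n) := by
        apply div_le_div_of_nonneg_left (by norm_num) (by positivity)
        exact mul_le_mul_of_nonneg_left hlogH (by positivity)

theorem muTilde_nonneg (n : ℕ) : 0 ≤ muTilde n := by
  unfold muTilde
  exact Real.iInf_nonneg fun g' =>
    div_nonneg (energy_nonneg _) (Finset.sum_nonneg fun f _ => sq_nonneg _)

theorem tendsto_zero : Tendsto (fun n : ℕ => (n : ℝ) ^ 2 * muTilde n) atTop (𝓝 0) := by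
  have h1 : Tendsto (fun n : ℕ => 208896000 / Real.log n) atTop (𝓝 0) :=
    (Real.tendsto_log_atTop.comp tendsto_natCast_atTop_atTop).const_div_atTop _
  refine squeeze_zero' (Eventually.of_forall fun n => ?_) ?_ h1
  · exact mul_nonneg (by positivity) (muTilde_nonneg n)
  · filter_upwards [eventually_ge_atTop 4] with n hn
    have hn' : (0 : ℝ) < n := by exact_mod_cast (by omega : 0 < n)
    have hlog : 0 < Real.log n := Real.log_pos (by exact_mod_cast (by omega : 1 < n))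
    calc (n : ℝ) ^ 2 * muTilde n ≤ (n : ℝ) ^ 2 * (208896000 / ((n : ℝ) ^ 2 * Real.log n)) :=
          mul_le_mul_of_nonneg_left (muTilde_le hn) (by positivity)
      _ = 208896000 / Real.log n := by field_simp

end Pool.Agent.H38.SpecDehn
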