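import Mathlib

/-!
The diagrams `Δ_n`: faces, edges on the boundary of each face, and the face-dual spectral quantity.
-/

namespace Pool.Agent.H38.SpecDehn

/-- The faces of `Δ_n`: `A r j` is the face `j` of the strip `S_r` of `A_n`, `B r j` is its mirror
image in `B_n` and `C c ρ` is the square of `C_n` in column `c` (of `n`) and row `ρ` (of `n ^ 2`).
All indices start at `0`. -/
inductive Face (n : ℕ) : Type
  | A (r j : Fin n)
  | B (r j : Fin n)
  | C (c : Fin n) (ρ : Fin (n ^ 2))
  deriving DecidableEq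

/-- Names for the edges of `Δ_n`: the `x`-edges and `y`-edges of `A_n`, those of `B_n`, and the
`x`-edges and `z`-edges of `C_n`; the `z`-edges of `A_n` and `B_n` are glued to `z`-edges of
`C_n`. -/
inductive Edge : Type
  | ax (r j : ℕ)
  | ay (r j : ℕ)
  | bx (r j : ℕ)
  | bY (r j : ℕ)
  | cx (c ρ : ℕ)
  | cz (c ρ : ℕ)
  deriving DecidableEq

/-- The edges on the boundary of a face. The pentagon `A r j` has an `x`-edge on the `x ^ n`-side
of its strip, an `x`-edge on the `x ^ (-n)`-side of its strip, which is the `x ^ n`-side of the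
next strip, two `y`-edges and one `z`-edge, which is the edge in row `r * n + j` of the first
`z`-side of `C_n`; likewise for `B r j` and the last `z`-side of `C_n`. The square `C c ρ` has two
`x`-edges and two `z`-edges. -/
def bd {n : ℕ} : Face n → Finset Edge
  | .A r j => {.ax r j, .ay r (j + 1), .ax (r + 1) j, .ay r j, .cz 0 (r * n + j)}
  | .B r j => {.bx r j, .bY r (j + 1), .bx (r + 1) j, .bY r j, .cz n (r * n + j)}
  | .C c ρ => {.cx c ρ, .cz (c + 1) ρ, .cx c (ρ + 1), .cz c ρ}

/-- The faces of `Δ_n` as a sum type. -/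
def faceEquiv (n : ℕ) : Face n ≃ (Fin n × Fin n) ⊕ (Fin n × Fin n) ⊕ (Fin n × Fin (n ^ 2)) where
  toFun
    | .A r j => .inl (r, j)
    | .B r j => .inr (.inl (r, j))
    | .C c ρ => .inr (.inr (c, ρ))
  invFun
    | .inl (r, j) => .A r j
    | .inr (.inl (r, j)) => .B r j
    | .inr (.inr (c, ρ)) => .C c ρ
  left_inv f := by cases f <;> rfl
  right_inv f := by rcases f with ⟨r, j⟩ | ⟨r, j⟩ | ⟨c, ρ⟩ <;> rfl

instance (n : ℕ) : Fintype (Face n) := Fintype.ofEquiv _ (faceEquiv n).symm

/-- The number of edges shared by two faces. -/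
def m {n : ℕ} (f f' : Face n) : ℕ := (bd f ∩ bd f').card

/-- The number of edges of the face `f` that lie on the boundary of `Δ_n`, that is, on no other
face. -/
def b {n : ℕ} (f : Face n) : ℕ := ((bd f).filter fun e => ∀ f', e ∈ bd f' → f' = f).card

/-- The energy of a function on the faces: the sum over unordered pairs of distinct faces (half of
the sum over ordered pairs) plus the boundary term. -/
noncomputable def energy {n : ℕ} (g : Face n → ℝ) : ℝ :=
  (∑ f, ∑ f', (m f f' : ℝ) * (g f - g f') ^ 2) / 2 + ∑ f, (b f : ℝ) * g f ^ 2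

/-- The quantity `μ̃_1 (Δ_n)`. -/
noncomputable def muTilde (n : ℕ) : ℝ :=
  ⨅ g : {g : Face n → ℝ // g ≠ 0}, energy g.1 / ∑ f, g.1 f ^ 2

end Pool.Agent.H38.SpecDehn
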