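import Mathlib

/-!
The test function: a harmonic cut-off near the ends of the blocks times a vertical taper.
-/

namespace Pool.Agent.H38.SpecDehn

/-- Distance to the nearest corner of the block. -/
def dd (n c j : ℕ) : ℕ := max (min c (n - 1 - c)) (min j (n - 1 - j))

/-- Harmonic numbers. -/
noncomputable def H (d : ℕ) : ℝ := ∑ i ∈ Finset.range d, 1 / ((i : ℝ) + 1)

/-- The taper. -/
noncomputable def T (N ρ : ℕ) : ℝ := (ρ : ℝ) * ((N : ℝ) - 1 - ρ) / (N : ℝ) ^ 2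

/-- The test function. -/
noncomputable def G (n c ρ : ℕ) : ℝ := T (n ^ 2) ρ * H (dd n c (ρ % n))

theorem H_zero : H 0 = 0 := by simp [H]

theorem H_succ (d : ℕ) : H (d + 1) = H d + 1 / ((d : ℝ) + 1) := by
  unfold H
  rw [Finset.sum_range_succ]

theorem H_nonneg (d : ℕ) : 0 ≤ H d := by
  unfold H
  exact Finset.sum_nonneg fun i _ => by positivity

theorem H_mono {d d' : ℕ} (h : d ≤ d') : H d ≤ H d' := by
  unfold H
  exact Finset.sum_le_sum_of_subset_of_nonneg (Finset.range_mono h) fun i _ _ => by positivity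

theorem H_le (d : ℕ) : H d ≤ d := by
  induction d with
  | zero => simp [H_zero]
  | succ d ih =>
    rw [H_succ]
    push_cast
    have : 1 / ((d : ℝ) + 1) ≤ 1 := by
      rw [div_le_one (by positivity)]
      linarith [Nat.cast_nonneg (α := ℝ) d]
    linarith

theorem H_diff {d d' : ℕ} (h1 : d ≤ d' + 1) (h2 : d' ≤ d + 1) :
    (H d - H d') ^ 2 ≤ 4 / ((d : ℝ) + 1) ^ 2 := by
  have hd : (0 : ℝ) < (d : ℝ) + 1 := by positivity
  have key : |H d - H d'| ≤ 2 / ((d : ℝ) + 1) := by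
    rcases Nat.lt_trichotomy d d' with h | h | h
    · have : d' = d + 1 := by omega
      subst this
      rw [H_succ, sub_add_cancel_left, abs_neg, abs_of_nonneg (by positivity)]
      gcongr
      norm_num
    · subst h
      rw [sub_self, abs_zero]
      positivity
    · have : d = d' + 1 := by omega
      subst this
      rw [H_succ, add_sub_cancel_left, abs_of_nonneg (by positivity)]
      push_cast
      rw [div_le_div_iff₀ (by positivity) (by positivity)]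
      have : (0 : ℝ) ≤ d' := by positivity
      linarith
  rw [← sq_abs, show (4 : ℝ) / ((d : ℝ) + 1) ^ 2 = (2 / ((d : ℝ) + 1)) ^ 2 by rw [div_pow]; norm_num]
  exact pow_le_pow_left₀ (abs_nonneg _) key 2

theorem T_nonneg {N ρ : ℕ} (h : ρ < N) : 0 ≤ T N ρ := by
  unfold T
  have : (ρ : ℝ) + 1 ≤ N := by exact_mod_cast h
  have h2 : (0 : ℝ) ≤ ρ := by positivity
  apply div_nonneg _ (by positivity)
  apply mul_nonneg h2
  linarith

theorem T_le {N ρ : ℕ} (h : ρ < N) : T N ρ ≤ ρ / N := by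
  unfold T
  have h1 : (ρ : ℝ) + 1 ≤ N := by exact_mod_cast h
  have h2 : (0 : ℝ) ≤ ρ := by positivity
  have h3 : (0 : ℝ) < N := by linarith
  rw [div_le_div_iff₀ (by positivity) h3]
  nlinarith [mul_nonneg h2 h3.le, mul_nonneg (mul_nonneg h2 h3.le) h2]

theorem T_le' {N ρ : ℕ} (h : ρ < N) : T N ρ ≤ (N - 1 - ρ) / N := by
  unfold T
  have h1 : (ρ : ℝ) + 1 ≤ N := by exact_mod_cast h
  have h2 : (0 : ℝ) ≤ ρ := by positivity
  have h3 : (0 : ℝ) < N := by linarith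
  have h4 : (0 : ℝ) ≤ N - 1 - ρ := by linarith
  rw [div_le_div_iff₀ (by positivity) h3]
  nlinarith [mul_nonneg h4 h3.le, mul_nonneg (mul_nonneg h4 h3.le) h4]

theorem T_le_one {N ρ : ℕ} (h : ρ < N) : T N ρ ≤ 1 := by
  refine (T_le h).trans ?_
  have h3 : (0 : ℝ) < N := by exact_mod_cast (by omega : 0 < N)
  rw [div_le_one h3]
  exact_mod_cast h.le

theorem T_diff {N ρ s : ℕ} (h : ρ + s < N) : |T N ρ - T N (ρ + s)| ≤ s / N := by
  have h1 : (ρ : ℝ) + s + 1 ≤ N := by exact_mod_cast h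
  have h2 : (0 : ℝ) ≤ ρ := by positivity
  have h2' : (0 : ℝ) ≤ s := by positivity
  have h3 : (0 : ℝ) < N := by linarith
  have e : T N ρ - T N (ρ + s) = (s : ℝ) * (2 * ρ + s + 1 - N) / (N : ℝ) ^ 2 := by
    unfold T
    push_cast
    field_simp
    ring
  rw [e, abs_div, abs_mul, abs_of_nonneg h2', abs_of_nonneg (by positivity : (0:ℝ) ≤ (N : ℝ) ^ 2),
    div_le_div_iff₀ (by positivity) h3]
  have h5 : |2 * (ρ : ℝ) + s + 1 - N| ≤ N := by
    rw [abs_le]
    constructor <;> linarith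
  nlinarith [mul_nonneg h2' h3.le, mul_le_mul_of_nonneg_left h5 (mul_nonneg h2' h3.le)]

theorem dd_lt {n c j : ℕ} (hc : c < n) (hj : j < n) : dd n c j < n := by
  unfold dd
  omega

theorem prod_diff {t t' h h' M a e : ℝ} (ht0 : 0 ≤ t) (ht1 : t ≤ 1) (hh0 : 0 ≤ h') (hh1 : h' ≤ M)
    (htt : |t - t'| ≤ a) (hhh : (h - h') ^ 2 ≤ e) :
    (t * h - t' * h') ^ 2 ≤ 2 * (a ^ 2 * M ^ 2) + 2 * e := by
  have h1 : (t * h - t' * h') ^ 2 ≤ 2 * (t * (h - h')) ^ 2 + 2 * ((t - t') * h') ^ 2 := by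
    nlinarith [sq_nonneg (t * (h - h') - (t - t') * h')]
  have h2 : (t * (h - h')) ^ 2 ≤ e := by
    rw [mul_pow]
    have : t ^ 2 ≤ 1 := pow_le_one₀ ht0 ht1
    nlinarith [sq_nonneg (h - h')]
  have h3 : ((t - t') * h') ^ 2 ≤ a ^ 2 * M ^ 2 := by
    rw [mul_pow, ← sq_abs (t - t')]
    exact mul_le_mul (pow_le_pow_left₀ (abs_nonneg _) htt 2) (pow_le_pow_left₀ hh0 hh1 2)
      (sq_nonneg _) (sq_nonneg _)
  linarith

theorem Q_le (N : ℕ) : ∑ a ∈ Finset.range N, ∑ e ∈ Finset.range N,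
    1 / ((max a e : ℕ) + 1 : ℝ) ^ 2 ≤ 2 * H N := by
  induction N with
  | zero => simp [H_zero]
  | succ N ih =>
    rw [Finset.sum_range_succ, H_succ]
    have h1 : ∑ a ∈ Finset.range N, ∑ e ∈ Finset.range (N + 1), 1 / ((max a e : ℕ) + 1 : ℝ) ^ 2 =
        ∑ a ∈ Finset.range N, ∑ e ∈ Finset.range N, 1 / ((max a e : ℕ) + 1 : ℝ) ^ 2 +
        N * (1 / ((N : ℝ) + 1) ^ 2) := by
      rw [show (N : ℝ) * (1 / ((N : ℝ) + 1) ^ 2) =
        ∑ a ∈ Finset.range N, 1 / ((N : ℝ) + 1) ^ 2 by simp, ← Finset.sum_add_distrib]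
      refine Finset.sum_congr rfl fun a ha => ?_
      rw [Finset.mem_range] at ha
      rw [Finset.sum_range_succ, max_eq_right ha.le]
    have h2 : ∑ e ∈ Finset.range (N + 1), 1 / ((max N e : ℕ) + 1 : ℝ) ^ 2 =
        (N + 1) * (1 / ((N : ℝ) + 1) ^ 2) := by
      rw [show ((N : ℝ) + 1) * (1 / ((N : ℝ) + 1) ^ 2) =
        ∑ a ∈ Finset.range (N + 1), 1 / ((N : ℝ) + 1) ^ 2 by simp]
      refine Finset.sum_congr rfl fun a ha => ?_
      rw [Finset.mem_range] at ha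
      rw [max_eq_left (by omega)]
    rw [h1, h2]
    have h3 : (N : ℝ) * (1 / ((N : ℝ) + 1) ^ 2) + ((N : ℝ) + 1) * (1 / ((N : ℝ) + 1) ^ 2) ≤
        2 * (1 / ((N : ℝ) + 1)) := by
      have h4 : (0 : ℝ) < (N : ℝ) + 1 := by positivity
      rw [← add_mul, mul_one_div, mul_one_div, div_le_div_iff₀ (by positivity) h4]
      nlinarith
    linarith

theorem fold_le (n : ℕ) (F : ℕ → ℝ) (hF : ∀ a, 0 ≤ F a) :
    ∑ c ∈ Finset.range n, F (min c (n - 1 - c)) ≤ 2 * ∑ a ∈ Finset.range n, F a := by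
  have h1 : ∑ c ∈ Finset.range n, F (min c (n - 1 - c)) ≤
      ∑ c ∈ Finset.range n, (F c + F (n - 1 - c)) := by
    refine Finset.sum_le_sum fun c _ => ?_
    rcases min_choice c (n - 1 - c) with h | h <;> rw [h]
    · linarith [hF (n - 1 - c)]
    · linarith [hF c]
  rw [Finset.sum_add_distrib, Finset.sum_range_reflect] at h1
  linarith

theorem sum_mod (n k : ℕ) (F : ℕ → ℝ) :
    ∑ ρ ∈ Finset.range (n * k), F (ρ % n) = k * ∑ j ∈ Finset.range n, F j := by
  induction k with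
  | zero => simp
  | succ k ih =>
    rw [Nat.mul_succ, Finset.sum_range_add, ih]
    have : ∑ x ∈ Finset.range n, F ((n * k + x) % n) = ∑ j ∈ Finset.range n, F j := by
      refine Finset.sum_congr rfl fun x hx => ?_
      rw [Finset.mem_range] at hx
      rw [Nat.mul_add_mod, Nat.mod_eq_of_lt hx]
    rw [this]
    push_cast
    ring

theorem S_le (n : ℕ) : ∑ c ∈ Finset.range n, ∑ ρ ∈ Finset.range (n ^ 2),
    1 / ((dd n c (ρ % n) : ℝ) + 1) ^ 2 ≤ 8 * (n * H n) := by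
  have h1 : ∀ c : ℕ, ∑ ρ ∈ Finset.range (n ^ 2), 1 / ((dd n c (ρ % n) : ℝ) + 1) ^ 2 =
      (n : ℝ) * ∑ j ∈ Finset.range n, 1 / ((dd n c j : ℝ) + 1) ^ 2 := by
    intro c
    have := sum_mod n n fun j => 1 / ((dd n c j : ℝ) + 1) ^ 2
    rwa [← sq] at this
  simp only [h1]
  rw [← Finset.mul_sum]
  have h2 : ∑ c ∈ Finset.range n, ∑ j ∈ Finset.range n, 1 / ((dd n c j : ℝ) + 1) ^ 2 ≤
      2 * ∑ a ∈ Finset.range n, ∑ j ∈ Finset.range n,
        1 / ((max a (min j (n - 1 - j)) : ℕ) + 1 : ℝ) ^ 2 :=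
    fold_le n (fun a => ∑ j ∈ Finset.range n,
        1 / ((max a (min j (n - 1 - j)) : ℕ) + 1 : ℝ) ^ 2)
      (fun a => Finset.sum_nonneg fun j _ => by positivity)
  have h3 : ∑ a ∈ Finset.range n, ∑ j ∈ Finset.range n,
        1 / ((max a (min j (n - 1 - j)) : ℕ) + 1 : ℝ) ^ 2 ≤
      2 * ∑ a ∈ Finset.range n, ∑ e ∈ Finset.range n, 1 / ((max a e : ℕ) + 1 : ℝ) ^ 2 := by
    rw [Finset.mul_sum]
    refine Finset.sum_le_sum fun a _ => ?_
    exact fold_le n (fun e => 1 / ((max a e : ℕ) + 1 : ℝ) ^ 2) (fun e => by positivity)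
  have h4 := Q_le n
  have hn : (0 : ℝ) ≤ n := by positivity
  calc (n : ℝ) * ∑ c ∈ Finset.range n, ∑ j ∈ Finset.range n, 1 / ((dd n c j : ℝ) + 1) ^ 2
      ≤ n * (8 * H n) := mul_le_mul_of_nonneg_left (by linarith) hn
    _ = 8 * (n * H n) := by ring

theorem H_quarter {n : ℕ} (hn : 4 ≤ n) : H n ≤ 5 * H (n / 4) := by
  set q := n / 4 with hq
  have h1 : ∀ k : ℕ, H (q + k) ≤ H q + k * (1 / ((q : ℝ) + 1)) := by
    intro k
    induction k with
    | zero => simp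
    | succ k ih =>
      rw [← add_assoc, H_succ]
      have : 1 / (((q + k : ℕ) : ℝ) + 1) ≤ 1 / ((q : ℝ) + 1) := by
        apply one_div_le_one_div_of_le (by positivity)
        push_cast
        linarith [Nat.cast_nonneg (α := ℝ) k]
      push_cast at this ⊢
      linarith
  have h2 := h1 (n - q)
  rw [show q + (n - q) = n by omega] at h2
  have h3 : ((n - q : ℕ) : ℝ) * (1 / ((q : ℝ) + 1)) ≤ 4 := by
    rw [mul_one_div, div_le_iff₀ (by positivity)]
    have : n - q ≤ 4 * (q + 1) := by omega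
    exact_mod_cast this
  have h4 : 1 ≤ H q := by
    have : H 1 ≤ H q := H_mono (by omega)
    rw [H_succ, H_zero] at this
    norm_num at this
    exact this
  linarith

theorem T_mass {N : ℕ} (hN : 6 ≤ N) : (N : ℝ) / 8192 ≤ ∑ ρ ∈ Finset.range N, T N ρ ^ 2 := by
  set p := N / 4 with hp
  have h1 : ∑ ρ ∈ Finset.Ico p (N - p), (1 / 4096 : ℝ) ≤ ∑ ρ ∈ Finset.range N, T N ρ ^ 2 := by
    refine le_trans ?_ (Finset.sum_le_sum_of_subset_of_nonneg (s := Finset.Ico p (N - p)) ?_ ?_)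
    · refine Finset.sum_le_sum fun ρ hρ => ?_
      rw [Finset.mem_Ico] at hρ
      have hN' : (0 : ℝ) < N := by exact_mod_cast (by omega : 0 < N)
      have e1 : (N : ℝ) / 8 ≤ p := by
        rw [div_le_iff₀ (by norm_num)]
        have : N ≤ p * 8 := by omega
        exact_mod_cast this
      have e2 : (p : ℝ) ≤ ρ := by exact_mod_cast hρ.1
      have e3 : (p : ℝ) ≤ N - 1 - ρ := by
        have : p + 1 + ρ ≤ N := by omega
        have : (p : ℝ) + 1 + ρ ≤ N := by exact_mod_cast this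
        linarith
      have e4 : (1 / 64 : ℝ) ≤ T N ρ := by
        unfold T
        rw [le_div_iff₀ (by positivity)]
        have : (N : ℝ) / 8 * (N / 8) ≤ ρ * (N - 1 - ρ) :=
          mul_le_mul (e1.trans e2) (e1.trans e3) (by positivity) (by positivity)
        linarith
      have := pow_le_pow_left₀ (by norm_num) e4 2
      norm_num at this ⊢
      exact this
    · intro ρ hρ
      rw [Finset.mem_Ico] at hρ
      rw [Finset.mem_range]
      omega
    · intro ρ _ _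
      positivity
  refine le_trans ?_ h1
  rw [Finset.sum_const, Nat.card_Ico, nsmul_eq_mul]
  have : N ≤ (N - p - p) * 2 := by omega
  have : (N : ℝ) ≤ ((N - p - p : ℕ) : ℝ) * 2 := by exact_mod_cast this
  linarith

theorem H_mass {n : ℕ} (hn : 4 ≤ n) :
    (n : ℝ) * H n ^ 2 / 50 ≤ ∑ c ∈ Finset.range n, H (min c (n - 1 - c)) ^ 2 := by
  set q := n / 4 with hq
  have h1 : ∑ c ∈ Finset.Ico q (n - q), H q ^ 2 ≤
      ∑ c ∈ Finset.range n, H (min c (n - 1 - c)) ^ 2 := by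
    refine le_trans ?_ (Finset.sum_le_sum_of_subset_of_nonneg (s := Finset.Ico q (n - q)) ?_ ?_)
    · refine Finset.sum_le_sum fun c hc => ?_
      rw [Finset.mem_Ico] at hc
      exact pow_le_pow_left₀ (H_nonneg _) (H_mono (by omega)) 2
    · intro c hc
      rw [Finset.mem_Ico] at hc
      rw [Finset.mem_range]
      omega
    · intro c _ _
      positivity
  refine le_trans ?_ h1
  rw [Finset.sum_const, Nat.card_Ico, nsmul_eq_mul]
  have h2 : (n : ℝ) ≤ ((n - q - q : ℕ) : ℝ) * 2 := by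
    have : n ≤ (n - q - q) * 2 := by omega
    exact_mod_cast this
  have h3 : H n ^ 2 ≤ 25 * H q ^ 2 := by
    have := pow_le_pow_left₀ (H_nonneg n) (H_quarter hn) 2
    rw [mul_pow] at this
    norm_num at this
    exact this
  have h4 : (n : ℝ) * H n ^ 2 ≤ (((n - q - q : ℕ) : ℝ) * 2) * (25 * H q ^ 2) :=
    mul_le_mul h2 h3 (sq_nonneg _) (by positivity)
  linarith

theorem G_mass {n : ℕ} (hn : 4 ≤ n) :
    (n : ℝ) ^ 3 * H n ^ 2 / 409600 ≤
      ∑ c ∈ Finset.range n, ∑ ρ ∈ Finset.range (n ^ 2), G n c ρ ^ 2 := by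
  have h1 : (∑ c ∈ Finset.range n, H (min c (n - 1 - c)) ^ 2) *
      (∑ ρ ∈ Finset.range (n ^ 2), T (n ^ 2) ρ ^ 2) ≤
      ∑ c ∈ Finset.range n, ∑ ρ ∈ Finset.range (n ^ 2), G n c ρ ^ 2 := by
    rw [Finset.sum_mul_sum]
    refine Finset.sum_le_sum fun c _ => Finset.sum_le_sum fun ρ _ => ?_
    unfold G
    rw [mul_pow, mul_comm]
    refine mul_le_mul_of_nonneg_left ?_ (sq_nonneg _)
    exact pow_le_pow_left₀ (H_nonneg _) (H_mono (le_max_left _ _)) 2
  refine le_trans ?_ h1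
  have hN : 6 ≤ n ^ 2 := by nlinarith
  have h2 := T_mass hN
  have h3 := H_mass hn
  push_cast at h2
  calc (n : ℝ) ^ 3 * H n ^ 2 / 409600 = ((n : ℝ) * H n ^ 2 / 50) * ((n : ℝ) ^ 2 / 8192) := by ring
    _ ≤ _ := mul_le_mul h3 h2 (by positivity) (Finset.sum_nonneg fun c _ => sq_nonneg _)

end Pool.Agent.H38.SpecDehn
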