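import Pool.Agent.H38.SpecDehn.Local
import Pool.Agent.H38.SpecDehn.Funcs

/-!
The energy of the test function.
-/

namespace Pool.Agent.H38.SpecDehn

/-- Local energy bound. -/
noncomputable def L (n c ρ : ℕ) : ℝ :=
  2 * ((1 / ((n : ℝ) ^ 2)) ^ 2 * H n ^ 2) + 2 * (4 / ((dd n c (ρ % n) : ℝ) + 1) ^ 2)

theorem L_nonneg (n c ρ : ℕ) : 0 ≤ L n c ρ := by
  unfold L
  positivity

theorem G_diff {n c ρ c' ρ' : ℕ} (hc' : c' < n) (hρ : ρ < n ^ 2)
    (hT : |T (n ^ 2) ρ - T (n ^ 2) ρ'| ≤ 1 / ((n : ℝ) ^ 2))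
    (h1 : dd n c (ρ % n) ≤ dd n c' (ρ' % n) + 1) (h2 : dd n c' (ρ' % n) ≤ dd n c (ρ % n) + 1) :
    (G n c ρ - G n c' ρ') ^ 2 ≤ L n c ρ := by
  have hn : 0 < n := by omega
  unfold G L
  exact prod_diff (T_nonneg hρ) (T_le_one hρ) (H_nonneg _)
    (H_mono (dd_lt hc' (Nat.mod_lt _ hn)).le) hT (H_diff h1 h2)

theorem mod_step {n ρ : ℕ} (hn : 0 < n) :
    ((ρ + 1) % n = ρ % n + 1 ∧ ρ % n + 1 < n) ∨ ((ρ + 1) % n = 0 ∧ ρ % n + 1 = n) := by
  have h1 : (ρ + 1) % n = (ρ % n + 1) % n := by rw [Nat.mod_add_mod]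
  have h2 := Nat.mod_lt ρ hn
  rcases Nat.lt_or_ge (ρ % n + 1) n with h | h
  · left
    rw [h1, Nat.mod_eq_of_lt h]
    exact ⟨rfl, h⟩
  · right
    have h3 : ρ % n + 1 = n := by omega
    rw [h1, h3, Nat.mod_self]
    exact ⟨rfl, rfl⟩

theorem dd_step {n c ρ : ℕ} (hn : 0 < n) : dd n c (ρ % n) ≤ dd n c ((ρ + 1) % n) + 1 ∧
    dd n c ((ρ + 1) % n) ≤ dd n c (ρ % n) + 1 := by
  unfold dd
  rcases mod_step (ρ := ρ) hn with ⟨h1, h2⟩ | ⟨h1, h2⟩ <;> rw [h1] <;> omega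

theorem dd_step' (n c j : ℕ) : dd n c j ≤ dd n (c + 1) j + 1 ∧ dd n (c + 1) j ≤ dd n c j + 1 := by
  unfold dd
  omega

theorem cast_sq (n : ℕ) : ((n ^ 2 : ℕ) : ℝ) = (n : ℝ) ^ 2 := by push_cast; rfl

/-- vertical and horizontal neighbours -/
theorem G_nb {n c ρ c' ρ' : ℕ} (hc : c < n) (hc' : c' < n) (hρ : ρ < n ^ 2) (hρ' : ρ' < n ^ 2)
    (h : (c = c' ∧ (ρ + 1 = ρ' ∨ ρ' + 1 = ρ)) ∨ (ρ = ρ' ∧ (c = c' ∨ c + 1 = c' ∨ c' + 1 = c))) :
    (G n c ρ - G n c' ρ') ^ 2 ≤ L n c ρ := by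
  have hn : 0 < n := by omega
  have h1n : (0 : ℝ) ≤ 1 / ((n : ℝ) ^ 2) := by positivity
  rcases h with ⟨rfl, rfl | rfl⟩ | ⟨rfl, rfl | rfl | rfl⟩
  · refine G_diff hc' hρ ?_ (dd_step hn).1 (dd_step hn).2
    have := T_diff hρ'
    rw [cast_sq] at this
    exact_mod_cast this
  · refine G_diff hc' hρ ?_ (dd_step hn).2 (dd_step hn).1
    have := T_diff hρ
    rw [cast_sq, abs_sub_comm] at this
    exact_mod_cast this
  · rw [sub_self]
    simpa using L_nonneg n c ρ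
  · refine G_diff hc' hρ ?_ (dd_step' n c _).1 (dd_step' n c _).2
    rw [sub_self, abs_zero]
    exact h1n
  · refine G_diff hc' hρ ?_ (dd_step' n c' _).2 (dd_step' n c' _).1
    rw [sub_self, abs_zero]
    exact h1n

/-- neighbours in different strips -/
theorem G_strip {n c ρ : ℕ} (hc : c < n) (hρ : ρ + n < n ^ 2) :
    (G n c ρ - G n c (ρ + n)) ^ 2 ≤ H n ^ 2 / (n : ℝ) ^ 2 := by
  have hn : 0 < n := by omega
  have hn' : (0 : ℝ) < n := by exact_mod_cast hn
  unfold G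
  rw [Nat.add_mod_right, ← sub_mul, mul_pow, ← sq_abs]
  have h1 := T_diff hρ
  rw [cast_sq] at h1
  have h2 : |T (n ^ 2) ρ - T (n ^ 2) (ρ + n)| ≤ 1 / n := by
    refine h1.trans (le_of_eq ?_)
    field_simp
  have h3 : H (dd n c (ρ % n)) ≤ H n := H_mono (dd_lt hc (Nat.mod_lt _ hn)).le
  calc |T (n ^ 2) ρ - T (n ^ 2) (ρ + n)| ^ 2 * H (dd n c (ρ % n)) ^ 2
      ≤ (1 / n) ^ 2 * H n ^ 2 :=
        mul_le_mul (pow_le_pow_left₀ (abs_nonneg _) h2 2)
          (pow_le_pow_left₀ (H_nonneg _) h3 2) (sq_nonneg _) (sq_nonneg _)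
    _ = H n ^ 2 / (n : ℝ) ^ 2 := by rw [div_pow, one_pow]; ring

/-- The test function. -/
noncomputable def g {n : ℕ} : Face n → ℝ
  | .A r j => G n 0 (r * n + j)
  | .B r j => G n (n - 1) (r * n + j)
  | .C c ρ => G n c ρ

/-- Local energy bounds at the faces. -/
noncomputable def KK {n : ℕ} : Face n → ℝ
  | .A r j => L n 0 (r * n + j) + H n ^ 2 / (n : ℝ) ^ 2
  | .B r j => L n (n - 1) (r * n + j) + H n ^ 2 / (n : ℝ) ^ 2
  | .C c ρ => L n c ρ

theorem KK_nonneg {n : ℕ} (f : Face n) : 0 ≤ KK f := by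
  rcases f with ⟨r, j⟩ | ⟨r, j⟩ | ⟨c, ρ⟩
  · exact add_nonneg (L_nonneg _ _ _) (by positivity)
  · exact add_nonneg (L_nonneg _ _ _) (by positivity)
  · exact L_nonneg _ _ _

theorem rn_lt {n : ℕ} (r j : Fin n) : (r : ℕ) * n + j < n ^ 2 := by
  have h1 := r.2
  have h2 := j.2
  nlinarith

/-- faces `A` or `B` adjacent in the grid -/
theorem strip_bound {n c : ℕ} (hc : c < n) (r j r' j' : Fin n)
    (h : (r = r' ∧ ((j : ℕ) + 1 = j' ∨ (j' : ℕ) + 1 = j)) ∨
      (j = j' ∧ ((r : ℕ) + 1 = r' ∨ (r' : ℕ) + 1 = r))) :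
    (G n c (r * n + j) - G n c (r' * n + j')) ^ 2 ≤
      L n c (r * n + j) + H n ^ 2 / (n : ℝ) ^ 2 := by
  have h0 : 0 ≤ H n ^ 2 / (n : ℝ) ^ 2 := by positivity
  have h1 := rn_lt r j
  have h2 := rn_lt r' j'
  have hL := L_nonneg n c (r * n + j)
  rcases h with ⟨rfl, h⟩ | ⟨rfl, h | h⟩
  · have := G_nb hc hc h1 h2 (Or.inl ⟨rfl, by omega⟩)
    linarith
  · have e : (r' : ℕ) * n + j = (r * n + j) + n := by rw [← h]; ring
    rw [e] at h2 ⊢
    have := G_strip hc h2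
    linarith
  · have e : (r : ℕ) * n + j = (r' * n + j) + n := by rw [← h]; ring
    rw [e] at h1 hL ⊢
    have := G_strip hc h1
    have e2 : ∀ a b : ℝ, (a - b) ^ 2 = (b - a) ^ 2 := fun a b => by ring
    rw [e2]
    linarith

theorem adjA {n : ℕ} (r j r' j' : Fin n) (e : Edge) (he : e ∈ bd (Face.A r j))
    (he' : e ∈ bd (Face.A r' j')) (hne : Face.A r' j' ≠ Face.A r j) :
    (r = r' ∧ ((j : ℕ) + 1 = j' ∨ (j' : ℕ) + 1 = j)) ∨
      (j = j' ∧ ((r : ℕ) + 1 = r' ∨ (r' : ℕ) + 1 = r)) := by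
  rcases e with ⟨a, b⟩ | ⟨a, b⟩ | ⟨a, b⟩ | ⟨a, b⟩ | ⟨a, b⟩ | ⟨a, b⟩ <;>
  simp only [bd, Finset.mem_insert, Finset.mem_singleton, Edge.ax.injEq, Edge.ay.injEq,
    Edge.cz.injEq, reduceCtorEq, or_false, false_or,
    Face.A.injEq, Fin.ext_iff, ne_eq, not_and] at he he' hne ⊢
  · omega
  · omega
  · have := @divmod_inj n r j r' j' j.2 j'.2
    omega

theorem adjB {n : ℕ} (r j r' j' : Fin n) (e : Edge) (he : e ∈ bd (Face.B r j))
    (he' : e ∈ bd (Face.B r' j')) (hne : Face.B r' j' ≠ Face.B r j) :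
    (r = r' ∧ ((j : ℕ) + 1 = j' ∨ (j' : ℕ) + 1 = j)) ∨
      (j = j' ∧ ((r : ℕ) + 1 = r' ∨ (r' : ℕ) + 1 = r)) := by
  rcases e with ⟨a, b⟩ | ⟨a, b⟩ | ⟨a, b⟩ | ⟨a, b⟩ | ⟨a, b⟩ | ⟨a, b⟩ <;>
  simp only [bd, Finset.mem_insert, Finset.mem_singleton, Edge.bx.injEq, Edge.bY.injEq,
    Edge.cz.injEq, reduceCtorEq, or_false, false_or,
    Face.B.injEq, Fin.ext_iff, ne_eq, not_and] at he he' hne ⊢
  · omega
  · omega
  · have := @divmod_inj n r j r' j' j.2 j'.2
    omega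

theorem adjC {n : ℕ} (c c' : Fin n) (ρ ρ' : Fin (n ^ 2)) (e : Edge) (he : e ∈ bd (Face.C c ρ))
    (he' : e ∈ bd (Face.C c' ρ')) :
    ((c : ℕ) = c' ∧ ((ρ : ℕ) + 1 = ρ' ∨ (ρ' : ℕ) + 1 = ρ)) ∨
      ((ρ : ℕ) = ρ' ∧ ((c : ℕ) = c' ∨ (c : ℕ) + 1 = c' ∨ (c' : ℕ) + 1 = c)) := by
  rcases e with ⟨a, b⟩ | ⟨a, b⟩ | ⟨a, b⟩ | ⟨a, b⟩ | ⟨a, b⟩ | ⟨a, b⟩ <;>
  simp only [bd, Finset.mem_insert, Finset.mem_singleton, Edge.cx.injEq,
    Edge.cz.injEq, reduceCtorEq, or_false, false_or] at he he' ⊢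
  · omega
  · omega

theorem adjAC {n : ℕ} (r j c : Fin n) (ρ : Fin (n ^ 2)) (e : Edge) (he : e ∈ bd (Face.A r j))
    (he' : e ∈ bd (Face.C c ρ)) : (c : ℕ) = 0 ∧ (ρ : ℕ) = r * n + j := by
  rcases e with ⟨a, b⟩ | ⟨a, b⟩ | ⟨a, b⟩ | ⟨a, b⟩ | ⟨a, b⟩ | ⟨a, b⟩ <;>
  simp only [bd, Finset.mem_insert, Finset.mem_singleton,
    Edge.cz.injEq, reduceCtorEq, or_false, false_or] at he he' ⊢
  omega

theorem adjBC {n : ℕ} (r j c : Fin n) (ρ : Fin (n ^ 2)) (e : Edge) (he : e ∈ bd (Face.B r j))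
    (he' : e ∈ bd (Face.C c ρ)) : (c : ℕ) = n - 1 ∧ (ρ : ℕ) = r * n + j := by
  have hc := c.2
  rcases e with ⟨a, b⟩ | ⟨a, b⟩ | ⟨a, b⟩ | ⟨a, b⟩ | ⟨a, b⟩ | ⟨a, b⟩ <;>
  simp only [bd, Finset.mem_insert, Finset.mem_singleton,
    Edge.cz.injEq, reduceCtorEq, or_false, false_or] at he he' ⊢
  omega

theorem adjAB {n : ℕ} (r j r' j' : Fin n) (e : Edge) (he : e ∈ bd (Face.A r j))
    (he' : e ∈ bd (Face.B r' j')) : False := by
  have hc := r.2
  rcases e with ⟨a, b⟩ | ⟨a, b⟩ | ⟨a, b⟩ | ⟨a, b⟩ | ⟨a, b⟩ | ⟨a, b⟩ <;>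
  simp only [bd, Finset.mem_insert, Finset.mem_singleton,
    Edge.cz.injEq, reduceCtorEq, or_false, false_or] at he he'
  omega

theorem adj_bound {n : ℕ} (f f' : Face n) (e : Edge) (he : e ∈ bd f) (he' : e ∈ bd f')
    (hne : f' ≠ f) : (g f - g f') ^ 2 ≤ KK f := by
  rcases f with ⟨r, j⟩ | ⟨r, j⟩ | ⟨c, ρ⟩ <;> rcases f' with ⟨r', j'⟩ | ⟨r', j'⟩ | ⟨c', ρ'⟩
  · exact strip_bound (by have := r.2; omega) r j r' j' (adjA r j r' j' e he he' hne)
  · exact (adjAB r j r' j' e he he').elim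
  · obtain ⟨h1, h2⟩ := adjAC r j c' ρ' e he he'
    simp only [g, h1, h2, sub_self]
    simpa using KK_nonneg (Face.A r j)
  · exact (adjAB r' j' r j e he' he).elim
  · exact strip_bound (by have := r.2; omega) r j r' j' (adjB r j r' j' e he he' hne)
  · obtain ⟨h1, h2⟩ := adjBC r j c' ρ' e he he'
    simp only [g, h1, h2, sub_self]
    simpa using KK_nonneg (Face.B r j)
  · obtain ⟨h1, h2⟩ := adjAC r' j' c ρ e he' he
    simp only [g, h1, h2, sub_self]
    simpa using KK_nonneg (Face.C c ρ)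
  · obtain ⟨h1, h2⟩ := adjBC r' j' c ρ e he' he
    simp only [g, h1, h2, sub_self]
    simpa using KK_nonneg (Face.C c ρ)
  · exact G_nb c.2 c'.2 ρ.2 ρ'.2 (adjC c c' ρ ρ' e he he')

/-! ### Boundary terms -/

theorem T_first {n ρ : ℕ} (h : ρ < n) (hn : ρ < n ^ 2) : T (n ^ 2) ρ ≤ 1 / n := by
  have h1 := T_le hn
  rw [cast_sq] at h1
  have hn' : (0 : ℝ) < n := by exact_mod_cast (by omega : 0 < n)
  refine h1.trans ?_
  rw [div_le_div_iff₀ (by positivity) hn']
  have : (ρ : ℝ) ≤ n := by exact_mod_cast h.le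
  nlinarith

theorem T_last {n ρ : ℕ} (h : n ^ 2 ≤ ρ + n) (hn : ρ < n ^ 2) : T (n ^ 2) ρ ≤ 1 / n := by
  have h1 := T_le' hn
  rw [cast_sq] at h1
  have hn' : (0 : ℝ) < n := by
    rcases Nat.eq_zero_or_pos n with rfl | h0
    · simp at hn
    · exact_mod_cast h0
  refine h1.trans ?_
  rw [div_le_div_iff₀ (by positivity) hn']
  have : (n : ℝ) ^ 2 ≤ ρ + n := by exact_mod_cast h
  nlinarith

theorem G_sq_le {n c ρ : ℕ} (hc : c < n) (hρ : ρ < n ^ 2) (h : T (n ^ 2) ρ ≤ 1 / n) :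
    G n c ρ ^ 2 ≤ H n ^ 2 / (n : ℝ) ^ 2 := by
  have hn : 0 < n := by omega
  unfold G
  rw [mul_pow]
  have h3 : H (dd n c (ρ % n)) ≤ H n := H_mono (dd_lt hc (Nat.mod_lt _ hn)).le
  calc T (n ^ 2) ρ ^ 2 * H (dd n c (ρ % n)) ^ 2
      ≤ (1 / n) ^ 2 * H n ^ 2 :=
        mul_le_mul (pow_le_pow_left₀ (T_nonneg hρ) h 2)
          (pow_le_pow_left₀ (H_nonneg _) h3 2) (sq_nonneg _) (sq_nonneg _)
    _ = H n ^ 2 / (n : ℝ) ^ 2 := by rw [div_pow, one_pow]; ring

theorem side_mod {n : ℕ} (r j : Fin n) : ((r : ℕ) * n + j) % n = j := by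
  rw [mul_comm, Nat.mul_add_mod, Nat.mod_eq_of_lt j.2]

theorem G_side {n : ℕ} (c : ℕ) (hc : c = 0 ∨ c = n - 1) (r j : Fin n)
    (hj : (j : ℕ) = 0 ∨ (j : ℕ) + 1 = n) : G n c (r * n + j) = 0 := by
  unfold G
  rw [side_mod]
  have : dd n c j = 0 := by
    unfold dd
    omega
  rw [this, H_zero, mul_zero]

theorem T_zero_left (N : ℕ) : T N 0 = 0 := by simp [T]

theorem T_zero_right {N ρ : ℕ} (h : ρ + 1 = N) : T N ρ = 0 := by
  subst h
  unfold T
  push_cast
  ring_nf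

theorem outerA {n : ℕ} (r j : Fin n) (e : Edge) (he : e ∈ bd (Face.A r j))
    (hout : ∀ f', e ∈ bd f' → f' = Face.A r j) : g (Face.A r j) ^ 2 ≤ H n ^ 2 / (n : ℝ) ^ 2 := by
  have hr := r.2
  have hj := j.2
  have hρ := rn_lt r j
  simp only [bd, Finset.mem_insert, Finset.mem_singleton] at he
  change G n 0 (r * n + j) ^ 2 ≤ _
  rcases he with rfl | rfl | rfl | rfl | rfl
  · by_cases h0 : (r : ℕ) = 0
    · refine G_sq_le (by omega) hρ (T_first ?_ hρ)
      rw [h0]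
      omega
    · exfalso
      have := hout (Face.A ⟨r - 1, by omega⟩ j) (by
        simp only [bd, Finset.mem_insert, Finset.mem_singleton, Edge.ax.injEq]
        right; right; left
        exact ⟨by omega, trivial⟩)
      simp only [Face.A.injEq, Fin.ext_iff] at this
      omega
  · by_cases h0 : (j : ℕ) + 1 = n
    · rw [G_side 0 (Or.inl rfl) r j (Or.inr h0)]
      simp only [ne_eq, OfNat.ofNat_ne_zero, not_false_eq_true, zero_pow]
      positivity
    · exfalso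
      have := hout (Face.A r ⟨j + 1, by omega⟩) (by
        simp only [bd, Finset.mem_insert, Finset.mem_singleton, Edge.ay.injEq]
        right; right; right; left
        trivial)
      simp only [Face.A.injEq, Fin.ext_iff] at this
      omega
  · by_cases h0 : (r : ℕ) + 1 = n
    · refine G_sq_le (by omega) hρ (T_last ?_ hρ)
      have : (r : ℕ) * n + n = n ^ 2 := by
        rw [sq]
        conv_rhs => rw [← h0, add_mul, one_mul]
        rw [h0]
      omega
    · exfalso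
      have := hout (Face.A ⟨r + 1, by omega⟩ j) (by
        simp only [bd, Finset.mem_insert, Finset.mem_singleton, Edge.ax.injEq]
        left
        trivial)
      simp only [Face.A.injEq, Fin.ext_iff] at this
      omega
  · by_cases h0 : (j : ℕ) = 0
    · rw [G_side 0 (Or.inl rfl) r j (Or.inl h0)]
      simp only [ne_eq, OfNat.ofNat_ne_zero, not_false_eq_true, zero_pow]
      positivity
    · exfalso
      have := hout (Face.A r ⟨j - 1, by omega⟩) (by
        simp only [bd, Finset.mem_insert, Finset.mem_singleton, Edge.ay.injEq]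
        right; left
        exact ⟨trivial, by omega⟩)
      simp only [Face.A.injEq, Fin.ext_iff] at this
      omega
  · exfalso
    have := hout (Face.C ⟨0, by omega⟩ ⟨r * n + j, hρ⟩) (by
      simp only [bd, Finset.mem_insert, Finset.mem_singleton, Edge.cz.injEq]
      right; right; right
      trivial)
    exact absurd this (by simp)

theorem outerB {n : ℕ} (r j : Fin n) (e : Edge) (he : e ∈ bd (Face.B r j))
    (hout : ∀ f', e ∈ bd f' → f' = Face.B r j) : g (Face.B r j) ^ 2 ≤ H n ^ 2 / (n : ℝ) ^ 2 := by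
  have hr := r.2
  have hj := j.2
  have hρ := rn_lt r j
  simp only [bd, Finset.mem_insert, Finset.mem_singleton] at he
  change G n (n - 1) (r * n + j) ^ 2 ≤ _
  rcases he with rfl | rfl | rfl | rfl | rfl
  · by_cases h0 : (r : ℕ) = 0
    · refine G_sq_le (by omega) hρ (T_first ?_ hρ)
      rw [h0]
      omega
    · exfalso
      have := hout (Face.B ⟨r - 1, by omega⟩ j) (by
        simp only [bd, Finset.mem_insert, Finset.mem_singleton, Edge.bx.injEq]
        right; right; left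
        exact ⟨by omega, trivial⟩)
      simp only [Face.B.injEq, Fin.ext_iff] at this
      omega
  · by_cases h0 : (j : ℕ) + 1 = n
    · rw [G_side (n - 1) (Or.inr rfl) r j (Or.inr h0)]
      simp only [ne_eq, OfNat.ofNat_ne_zero, not_false_eq_true, zero_pow]
      positivity
    · exfalso
      have := hout (Face.B r ⟨j + 1, by omega⟩) (by
        simp only [bd, Finset.mem_insert, Finset.mem_singleton, Edge.bY.injEq]
        right; right; right; left
        trivial)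
      simp only [Face.B.injEq, Fin.ext_iff] at this
      omega
  · by_cases h0 : (r : ℕ) + 1 = n
    · refine G_sq_le (by omega) hρ (T_last ?_ hρ)
      have : (r : ℕ) * n + n = n ^ 2 := by
        rw [sq]
        conv_rhs => rw [← h0, add_mul, one_mul]
        rw [h0]
      omega
    · exfalso
      have := hout (Face.B ⟨r + 1, by omega⟩ j) (by
        simp only [bd, Finset.mem_insert, Finset.mem_singleton, Edge.bx.injEq]
        left
        trivial)
      simp only [Face.B.injEq, Fin.ext_iff] at this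
      omega
  · by_cases h0 : (j : ℕ) = 0
    · rw [G_side (n - 1) (Or.inr rfl) r j (Or.inl h0)]
      simp only [ne_eq, OfNat.ofNat_ne_zero, not_false_eq_true, zero_pow]
      positivity
    · exfalso
      have := hout (Face.B r ⟨j - 1, by omega⟩) (by
        simp only [bd, Finset.mem_insert, Finset.mem_singleton, Edge.bY.injEq]
        right; left
        exact ⟨trivial, by omega⟩)
      simp only [Face.B.injEq, Fin.ext_iff] at this
      omega
  · exfalso
    have := hout (Face.C ⟨n - 1, by omega⟩ ⟨r * n + j, hρ⟩) (by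
      simp only [bd, Finset.mem_insert, Finset.mem_singleton, Edge.cz.injEq]
      right; left
      exact ⟨by omega, trivial⟩)
    exact absurd this (by simp)

theorem outerC {n : ℕ} (c : Fin n) (ρ : Fin (n ^ 2)) (e : Edge) (he : e ∈ bd (Face.C c ρ))
    (hout : ∀ f', e ∈ bd f' → f' = Face.C c ρ) : g (Face.C c ρ) ^ 2 ≤ 0 := by
  have hc := c.2
  have hρ := ρ.2
  have hn : 0 < n := by omega
  have hdm := Nat.div_add_mod (ρ : ℕ) n
  have hmod := Nat.mod_lt (ρ : ℕ) hn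
  have hdiv : (ρ : ℕ) / n < n := by
    rw [Nat.div_lt_iff_lt_mul hn, ← sq]
    exact hρ
  simp only [bd, Finset.mem_insert, Finset.mem_singleton] at he
  change G n c ρ ^ 2 ≤ _
  rcases he with rfl | rfl | rfl | rfl
  · by_cases h0 : (ρ : ℕ) = 0
    · unfold G
      rw [h0, T_zero_left]
      simp
    · exfalso
      have := hout (Face.C c ⟨ρ - 1, by omega⟩) (by
        simp only [bd, Finset.mem_insert, Finset.mem_singleton, Edge.cx.injEq]
        right; right; left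
        exact ⟨trivial, by omega⟩)
      simp only [Face.C.injEq, Fin.ext_iff] at this
      omega
  · exfalso
    by_cases h0 : (c : ℕ) + 1 = n
    · have := hout (Face.B ⟨ρ / n, hdiv⟩ ⟨ρ % n, hmod⟩) (by
        simp only [bd, Finset.mem_insert, Finset.mem_singleton, Edge.cz.injEq]
        right; right; right; right
        exact ⟨h0, by rw [mul_comm]; exact hdm.symm⟩)
      exact absurd this (by simp)
    · have := hout (Face.C ⟨c + 1, by omega⟩ ρ) (by
        simp only [bd, Finset.mem_insert, Finset.mem_singleton, Edge.cz.injEq]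
        right; right; right
        trivial)
      simp only [Face.C.injEq, Fin.ext_iff] at this
      omega
  · by_cases h0 : (ρ : ℕ) + 1 = n ^ 2
    · unfold G
      rw [T_zero_right h0]
      simp
    · exfalso
      have := hout (Face.C c ⟨ρ + 1, by omega⟩) (by
        simp only [bd, Finset.mem_insert, Finset.mem_singleton, Edge.cx.injEq]
        left
        trivial)
      simp only [Face.C.injEq, Fin.ext_iff] at this
      omega
  · exfalso
    by_cases h0 : (c : ℕ) = 0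
    · have := hout (Face.A ⟨ρ / n, hdiv⟩ ⟨ρ % n, hmod⟩) (by
        simp only [bd, Finset.mem_insert, Finset.mem_singleton, Edge.cz.injEq]
        right; right; right; right
        exact ⟨h0, by rw [mul_comm]; exact hdm.symm⟩)
      exact absurd this (by simp)
    · have := hout (Face.C ⟨c - 1, by omega⟩ ρ) (by
        simp only [bd, Finset.mem_insert, Finset.mem_singleton, Edge.cz.injEq]
        right; left
        exact ⟨by omega, trivial⟩)
      simp only [Face.C.injEq, Fin.ext_iff] at this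
      omega

end Pool.Agent.H38.SpecDehn
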