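import Pool.Agent.H38.SpecDehn.Defs

/-!
Local bounds for the energy.
-/

namespace Pool.Agent.H38.SpecDehn

theorem divmod_inj {n r j r' j' : ℕ} (hj : j < n) (hj' : j' < n)
    (h : r * n + j = r' * n + j') : r = r' ∧ j = j' := by
  have hn : 0 < n := by omega
  have h1 : (r * n + j) / n = r := by
    rw [mul_comm, Nat.mul_add_div hn, Nat.div_eq_of_lt hj, add_zero]
  have h2 : (r' * n + j') / n = r' := by
    rw [mul_comm, Nat.mul_add_div hn, Nat.div_eq_of_lt hj', add_zero]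
  have h3 : r = r' := by rw [← h1, h, h2]
  subst h3
  exact ⟨rfl, by omega⟩

/-- Every edge is on at most two faces. -/
theorem three {n : ℕ} (e : Edge) (f f' f'' : Face n) (h : e ∈ bd f) (h' : e ∈ bd f')
    (h'' : e ∈ bd f'') : f = f' ∨ f = f'' ∨ f' = f'' := by
  rcases f with ⟨r, j⟩ | ⟨r, j⟩ | ⟨c, ρ⟩ <;> rcases f' with ⟨r', j'⟩ | ⟨r', j'⟩ | ⟨c', ρ'⟩ <;>
  rcases f'' with ⟨r'', j''⟩ | ⟨r'', j''⟩ | ⟨c'', ρ''⟩ <;>
  rcases e with ⟨a, b⟩ | ⟨a, b⟩ | ⟨a, b⟩ | ⟨a, b⟩ | ⟨a, b⟩ | ⟨a, b⟩ <;>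
  simp only [bd, Finset.mem_insert, Finset.mem_singleton, Edge.ax.injEq, Edge.ay.injEq,
    Edge.bx.injEq, Edge.bY.injEq, Edge.cx.injEq, Edge.cz.injEq, reduceCtorEq, or_false, false_or,
    Face.A.injEq, Face.B.injEq, Face.C.injEq, Fin.ext_iff] at h h' h'' ⊢
  all_goals first
    | omega
    | (have := @divmod_inj n r j r' j' j.2 j'.2; omega)
    | (have := @divmod_inj n r j r'' j'' j.2 j''.2; omega)
    | (have := @divmod_inj n r' j' r'' j'' j'.2 j''.2; omega)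

theorem pair_sum_le {n : ℕ} (g : Face n → ℝ) (f : Face n) (K : Edge → ℝ)
    (hK0 : ∀ e ∈ bd f, 0 ≤ K e)
    (hK : ∀ e ∈ bd f, ∀ f', f' ≠ f → e ∈ bd f' → (g f - g f') ^ 2 ≤ K e) :
    ∑ f', (m f f' : ℝ) * (g f - g f') ^ 2 ≤ ∑ e ∈ bd f, K e := by
  have h1 : ∀ f', (m f f' : ℝ) = ∑ e ∈ bd f, if e ∈ bd f' then (1 : ℝ) else 0 := by
    intro f'
    unfold m
    rw [← Finset.filter_mem_eq_inter, Finset.card_filter]
    push_cast
    rfl
  have h2 : ∑ f', (m f f' : ℝ) * (g f - g f') ^ 2 =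
      ∑ e ∈ bd f, ∑ f', (if e ∈ bd f' then (1 : ℝ) else 0) * (g f - g f') ^ 2 := by
    rw [Finset.sum_comm]
    refine Finset.sum_congr rfl fun f' _ => ?_
    rw [h1, Finset.sum_mul]
  rw [h2]
  refine Finset.sum_le_sum fun e he => ?_
  by_cases hex : ∃ f0, f0 ≠ f ∧ e ∈ bd f0
  · obtain ⟨f0, hf0, he0⟩ := hex
    rw [Finset.sum_eq_single f0]
    · rw [if_pos he0, one_mul]
      exact hK e he f0 hf0 he0
    · intro f1 _ h10
      by_cases he1 : e ∈ bd f1
      · rcases three e f f0 f1 he he0 he1 with h | h | h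
        · exact absurd h.symm hf0
        · rw [← h, sub_self]
          ring
        · exact absurd h.symm h10
      · rw [if_neg he1, zero_mul]
    · intro h
      exact absurd (Finset.mem_univ _) h
  · push Not at hex
    rw [Finset.sum_eq_zero]
    · exact hK0 e he
    · intro f1 _
      by_cases h : f1 = f
      · rw [h, sub_self]
        ring
      · rw [if_neg (hex f1 h), zero_mul]

theorem card_bd_le {n : ℕ} (f : Face n) : (bd f).card ≤ 5 := by
  rcases f with ⟨r, j⟩ | ⟨r, j⟩ | ⟨c, ρ⟩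
  · exact Finset.card_le_five
  · exact Finset.card_le_five
  · exact Finset.card_le_four.trans (by norm_num)

theorem bd_term_le {n : ℕ} (g : Face n → ℝ) (f : Face n) (M : ℝ) (hM : 0 ≤ M)
    (h : ∀ e ∈ bd f, (∀ f', e ∈ bd f' → f' = f) → g f ^ 2 ≤ M) :
    (b f : ℝ) * g f ^ 2 ≤ 5 * M := by
  by_cases hb : b f = 0
  · rw [hb, Nat.cast_zero, zero_mul]
    positivity
  · obtain ⟨e, he⟩ := Finset.card_pos.1 (Nat.pos_of_ne_zero hb)
    rw [Finset.mem_filter] at he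
    have h1 := h e he.1 he.2
    have h2 : (b f : ℝ) ≤ 5 := by
      have : b f ≤ 5 := (Finset.card_filter_le _ _).trans (card_bd_le f)
      exact_mod_cast this
    exact mul_le_mul h2 h1 (sq_nonneg _) (by norm_num)

end Pool.Agent.H38.SpecDehn
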